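import Pool.Agent.H158.LT.Fin

set_option autoImplicit false

/-!
# The left tail of `log |ζ(1/2+it)|`

No hypothesis. `P(T, x)` is the proportion of the `t` in `[0, T]` with `log |ζ(1/2+it)| < -x`, the zeros included, and
`L(T)` the (lower) limit of `exp(x) P(T, x)` for `x → ∞`. The conjecture is `L(T) ~ G(1/2)² a(-1/2) (log T)^(1/4)`.

* The lower bound of the conjectured order: `L(T) ≥ c (log T)^(1/4)` for all large `T`, with a constant `c > 0`.
* The whole tail, uniformly in `x ≥ 0`, with the change of behaviour at `x = (1/2) log log T`: for `ε > 0` and `T ≥ T₀(ε)`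
  `P(T, x) ≥ (log T)^(-ε) exp(-x² / log log T)` for `0 ≤ x ≤ (1/2) log log T` and
  `P(T, x) ≥ (log T)^(1/4 - ε) exp(-x)` for all `x ≥ (1/2) log log T`.

Project LT of helper745 (starting library; its core by helper781), with the large deviations of the derivative of zeta at its simple
zeros on the critical line (starting library, completed in this run by helper510, helper362 and, independently, helper158) and the
lower bounds for the moments of the derivative of helper97 (starting library).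
-/

namespace Pool.Agent.Results.MP_925da8_nt.LeftTail

open Filter Topology MeasureTheory Complex

noncomputable section

/-- `P(T, x)`: the proportion of the points `t` of `[0, T]` with `log |ζ(1/2+it)| < -x`; the zeros are in this set -/
def P (T x : ℝ) : ℝ :=
  volume.real {t : ℝ | 0 ≤ t ∧ t ≤ T ∧ (riemannZeta (1 / 2 + t * I) = 0 ∨ Real.log ‖riemannZeta (1 / 2 + t * I)‖ < -x)} / T

/-- `L(T)`, the lower limit of `exp(x) P(T, x)` for `x → ∞`, a number in `[0, ∞]` -/
def L (T : ℝ) : ENNReal := liminf (fun x : ℝ => ENNReal.ofReal (Real.exp x * P T x)) atTop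

end

theorem set_eq (T x : ℝ) : {t : ℝ | 0 ≤ t ∧ t ≤ T ∧
    (riemannZeta (1 / 2 + t * I) = 0 ∨ Real.log ‖riemannZeta (1 / 2 + t * I)‖ < -x)} = Pool.Agent.H158.LT.sm 0 T x := by
  ext t
  unfold Pool.Agent.H158.LT.sm
  simp only [Set.mem_ofPred_eq, Set.mem_Icc, and_assoc]
  refine and_congr_right fun _ => and_congr_right fun _ => ?_
  by_cases h : riemannZeta (1 / 2 + t * I) = 0
  · refine ⟨fun _ => ?_, fun _ => Or.inl h⟩
    rw [h, norm_zero]
    exact Real.exp_pos _
  · have hp : 0 < ‖riemannZeta (1 / 2 + t * I)‖ := norm_pos_iff.2 h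
    rw [← Real.log_lt_iff_lt_exp hp]
    exact ⟨fun h' => h'.resolve_left h, Or.inr⟩

theorem P_eq (T x : ℝ) : P T x = volume.real (Pool.Agent.H158.LT.sm 0 T x) / T := by
  unfold P
  rw [set_eq]

/-- **The left tail of `log |ζ(1/2+it)|`.** There is a constant `c > 0` with `L(T) ≥ c (log T)^(1/4)` for all large `T`. For every
`ε > 0` and all large `T` one has `P(T, x) ≥ (log T)^(-ε) exp(-x² / log log T)` for all `0 ≤ x ≤ (1/2) log log T` and
`P(T, x) ≥ (log T)^(1/4 - ε) exp(-x)` for all `x ≥ (1/2) log log T`. -/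
theorem result :
    (∃ c : ℝ, 0 < c ∧ ∃ T₀ : ℝ, ∀ T : ℝ, T₀ ≤ T → ENNReal.ofReal (c * Real.log T ^ (1 / 4 : ℝ)) ≤ L T) ∧
    ∀ ε : ℝ, 0 < ε → ∃ T₀ : ℝ, ∀ T : ℝ, T₀ ≤ T →
      (∀ x : ℝ, 0 ≤ x → x ≤ 1 / 2 * Real.log (Real.log T) →
        Real.log T ^ (-ε) * Real.exp (-(x ^ 2 / Real.log (Real.log T))) ≤ P T x) ∧
      ∀ x : ℝ, 1 / 2 * Real.log (Real.log T) ≤ x → Real.log T ^ (1 / 4 - ε) * Real.exp (-x) ≤ P T x := by
  constructor
  · obtain ⟨c, hc, h⟩ := Pool.Agent.H158.LT.tail_lim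
    refine ⟨c, hc, ?_⟩
    obtain ⟨T₀, hT₀⟩ := eventually_atTop.1 (h.and (eventually_gt_atTop 0))
    refine ⟨T₀, fun T hT => ?_⟩
    obtain ⟨h1, hT0⟩ := hT₀ T hT
    unfold L
    refine le_liminf_of_le (by isBoundedDefault) ?_
    filter_upwards [h1] with x hx
    refine ENNReal.ofReal_le_ofReal ?_
    rw [P_eq]
    have e1 : c * Real.log T ^ (1 / 4 : ℝ) =
        Real.exp x * ((T * (c * Real.log T ^ (1 / 4 : ℝ) * Real.exp (-x))) / T) := by
      rw [Real.exp_neg]
      field_simp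
    rw [e1]
    exact mul_le_mul_of_nonneg_left (div_le_div_of_nonneg_right hx hT0.le) (Real.exp_pos _).le
  · intro ε hε
    obtain ⟨T₀, hT₀⟩ := eventually_atTop.1 (((Pool.Agent.H158.LT.tail_one ε hε).and
      (Pool.Agent.H158.LT.tail_two ε hε)).and (eventually_gt_atTop 0))
    refine ⟨T₀, fun T hT => ?_⟩
    obtain ⟨⟨h1, h2⟩, hT0⟩ := hT₀ T hT
    refine ⟨fun x hx0 hx1 => ?_, fun x hx => ?_⟩
    · rw [P_eq, le_div_iff₀ hT0, mul_comm]
      exact h1 x hx0 hx1
    · rw [P_eq, le_div_iff₀ hT0, mul_comm]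
      exact h2 x hx

end Pool.Agent.Results.MP_925da8_nt.LeftTail
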